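import Mathlib

/-!
# Local factors and the middle cohomology: definitions
-/

open Polynomial

universe u v w x y

namespace Pool.Agent.TH26.MD

section rep

variable {G : Type u} [Group G] {K : Type w} [Field K]

/-- The invariants of the subgroup `I` (the inertia group) in the representation `ρ`. -/
def inv (I : Subgroup G) {V : Type y} [AddCommGroup V] [Module K V] (ρ : Representation K G V) :
    Submodule K V where
  carrier := {v | ∀ g ∈ I, ρ g v = v}
  add_mem' {a b} ha hb g hg := by rw [map_add, ha g hg, hb g hg]
  zero_mem' g _ := map_zero _
  smul_mem' c v hv g hg := by rw [map_smul, hv g hg]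

lemma frob_mem (I : Subgroup G) [hI : I.Normal] (F : G) {V : Type y} [AddCommGroup V] [Module K V]
    (ρ : Representation K G V) : ∀ v ∈ inv I ρ, ρ F v ∈ inv I ρ := by
  intro v hv g hg
  have h1 : F⁻¹ * g * F ∈ I := by
    have := hI.conj_mem g hg F⁻¹
    rwa [inv_inv] at this
  have h2 : g * F = F * (F⁻¹ * g * F) := by group
  rw [← Module.End.mul_apply, ← map_mul, h2, map_mul, Module.End.mul_apply, hv _ h1]

/-- The operator `F` (Frobenius) on the invariants of the normal subgroup `I` (inertia). -/
def frob (I : Subgroup G) [I.Normal] (F : G) {V : Type y} [AddCommGroup V] [Module K V]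
    (ρ : Representation K G V) : inv I ρ →ₗ[K] inv I ρ :=
  (ρ F).restrict (frob_mem I F ρ)

/-- The polynomial `det(1 - T f)` of an operator `f` on a finite-dimensional vector space (the
reversed characteristic polynomial). -/
noncomputable def detOneSub {V : Type y} [AddCommGroup V] [Module K V] [FiniteDimensional K V]
    (f : V →ₗ[K] V) : K[X] := f.charpoly.reverse

/-- The local factor `det(1 - T F | V^I)` of the representation `ρ` on `V`. -/
noncomputable def fac (I : Subgroup G) [I.Normal] (F : G) {V : Type y} [AddCommGroup V]
    [Module K V] [FiniteDimensional K V] (ρ : Representation K G V) : K[X] :=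
  detOneSub (frob I F ρ)

/-- The twist of the representation `ρ` by the character `χ`. -/
def twist (χ : G →* K) {V : Type y} [AddCommGroup V] [Module K V] (ρ : Representation K G V) :
    Representation K G V where
  toFun g := χ g • ρ g
  map_one' := by rw [map_one, map_one, one_smul]
  map_mul' g h := by rw [map_mul, map_mul, smul_mul_smul_comm]

/-- The direct sum of two representations. -/
def sum {V W : Type y} [AddCommGroup V] [Module K V] [AddCommGroup W] [Module K W]
    (ρ : Representation K G V) (σ : Representation K G W) : Representation K G (V × W) where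
  toFun g := (ρ g).prodMap (σ g)
  map_one' := by
    ext v <;> simp
  map_mul' g h := by
    ext v <;> simp

/-- The representations `ρ` and `σ` are isomorphic. -/
def Iso {V W : Type y} [AddCommGroup V] [Module K V] [AddCommGroup W] [Module K W]
    (ρ : Representation K G V) (σ : Representation K G W) : Prop :=
  ∃ e : V ≃ₗ[K] W, ∀ (g : G) (v : V), e (ρ g v) = σ g (e v)

end rep

/-- The data of a class of smooth projective varieties over a field with the action of the group `G`
(the Galois group of a local field) on their cohomology. For each index `l` (a prime number `ℓ`) the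
cohomology has coefficients in the field `K l` (the field of `ℓ`-adic numbers). -/
structure Cohomology (G : Type u) [Group G] (ι : Type v) (K : ι → Type w)
    [∀ l, Field (K l)] where
  /-- the varieties -/
  Var : Type x
  /-- the dimension -/
  dim : Var → ℕ
  /-- the product `X × P^a` with a projective space -/
  timesP : Var → ℕ → Var
  /-- the cohomology `H^i(X)` with coefficients in `K l` -/
  V : ι → Var → ℤ → Type y
  [grp : ∀ l X i, AddCommGroup (V l X i)]
  [mod : ∀ l X i, Module (K l) (V l X i)]
  [fin : ∀ l X i, FiniteDimensional (K l) (V l X i)]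
  /-- the Galois action on `H^i(X)` -/
  rho : ∀ l X i, Representation (K l) G (V l X i)

attribute [instance] Cohomology.grp Cohomology.mod Cohomology.fin

variable {G : Type u} [Group G] {ι : Type v} {K : ι → Type w} [∀ l, Field (K l)]
  (D : Cohomology.{u, v, w, x, y} G ι K) (I : Subgroup G) [I.Normal] (F : G)

/-- The local factor `P_{p,ℓ}(T) = det(1 - T F | H^i(X)^I)`. -/
noncomputable def Cohomology.factor (l : ι) (X : D.Var) (i : ℤ) : (K l)[X] :=
  fac I F (D.rho l X i)

/-- The known properties of the cohomology which are used. Here `χ` is the inverse of the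
cyclotomic character: the representation `H(-s)` is the twist of `H` by `χ^s`.

* `inertia`, `frobenius`: `χ` is trivial on the inertia group, and its value at the geometric
  Frobenius `F` is `p`;
* `dim_timesP`, `zero`, `succ`: `dim (X × P^a) = dim X + a`, `H^i(X × P^0) = H^i(X)` and
  `H^i(X × P^(a+1)) = H^i(X) ⊕ H^(i-2)(X × P^a)(-1)`;
* `lefschetz`: the hard Lefschetz theorem, `H^(n+s)(X) = H^(n-s)(X)(-s)` for `n = dim X`;
* `integral`: the coefficients of the local factors are integral over the integers (the eigenvalues
  of the geometric Frobenius are algebraic integers, SGA 7 XXI). -/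
structure Cohomology.IsCohomology (p : ℕ) (χ : ∀ l, G →* K l) : Prop where
  inertia : ∀ l, ∀ g ∈ I, χ l g = 1
  frobenius : ∀ l, χ l F = p
  dim_timesP : ∀ X a, D.dim (D.timesP X a) = D.dim X + a
  zero : ∀ l X i, Iso (D.rho l (D.timesP X 0) i) (D.rho l X i)
  succ : ∀ l X a i, Iso (D.rho l (D.timesP X (a + 1)) i)
    (sum (D.rho l X i) (twist (χ l) (D.rho l (D.timesP X a) (i - 2))))
  lefschetz : ∀ l X (s : ℕ), Iso (D.rho l X (D.dim X + s))
    (twist (χ l ^ s) (D.rho l X (D.dim X - s)))
  integral : ∀ l X i k, IsIntegral ℤ ((D.factor I F l X i).coeff k)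

/-- The local factors of `H^i(X)` are given by one polynomial with integral coefficients,
independent of `ℓ`. -/
def Cohomology.Good (X : D.Var) (i : ℤ) : Prop :=
  ∃ P : ℤ[X], ∀ l, D.factor I F l X i = P.map (Int.castRingHom (K l))

end Pool.Agent.TH26.MD
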