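import Pool.Agent.TH26.MD.Defs

/-!
# Local factors and the middle cohomology
-/

open Polynomial

universe u v w x y

namespace Pool.Agent.TH26.MD

section det

variable {K : Type w} [Field K]

lemma charpolyRev_smul {n : Type*} [Fintype n] [DecidableEq n] (M : Matrix n n K) (c : K) :
    (c • M).charpolyRev = M.charpolyRev.comp (C c * X) := by
  rw [Matrix.charpolyRev, Matrix.charpolyRev, ← coe_compRingHom_apply, RingHom.map_det]
  congr 1
  refine Matrix.ext fun i j => ?_
  by_cases h : i = j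
  · subst h
    simp [Matrix.map_apply]
    ring
  · simp [Matrix.map_apply, h]
    ring

variable {V W : Type y} [AddCommGroup V] [Module K V] [FiniteDimensional K V] [AddCommGroup W]
  [Module K W] [FiniteDimensional K W]

lemma detOneSub_eq (f : V →ₗ[K] V) : detOneSub f =
    (LinearMap.toMatrix (Module.finBasis K V) (Module.finBasis K V) f).charpolyRev := by
  rw [detOneSub, ← LinearMap.charpoly_toMatrix f (Module.finBasis K V), Matrix.reverse_charpoly]

lemma detOneSub_smul (f : V →ₗ[K] V) (c : K) :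
    detOneSub (c • f) = (detOneSub f).comp (C c * X) := by
  rw [detOneSub_eq, detOneSub_eq, map_smul, charpolyRev_smul]

lemma detOneSub_coeff (f : V →ₗ[K] V) : (detOneSub f).coeff 0 = 1 := by
  rw [detOneSub_eq, coeff_zero_eq_eval_zero, Matrix.eval_charpolyRev]

lemma detOneSub_prod (f : V →ₗ[K] V) (g : W →ₗ[K] W) :
    detOneSub (f.prodMap g) = detOneSub f * detOneSub g := by
  rw [detOneSub, detOneSub, detOneSub, LinearMap.charpoly_prodMap, reverse_mul_of_domain]

lemma detOneSub_conj (e : V ≃ₗ[K] W) (f : V →ₗ[K] V) :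
    detOneSub (e.conj f) = detOneSub f := by
  rw [detOneSub, detOneSub, LinearEquiv.charpoly_conj]

end det

section rep

variable {G : Type u} [Group G] {K : Type w} [Field K] (I : Subgroup G) [I.Normal] (F : G)
  {V W : Type y} [AddCommGroup V] [Module K V] [FiniteDimensional K V] [AddCommGroup W]
  [Module K W] [FiniteDimensional K W]

lemma fac_coeff (ρ : Representation K G V) : (fac I F ρ).coeff 0 = 1 := detOneSub_coeff _

lemma fac_iso {ρ : Representation K G V} {σ : Representation K G W} (h : Iso ρ σ) :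
    fac I F ρ = fac I F σ := by
  obtain ⟨e, he⟩ := h
  have hmap : (inv I ρ).map (e : V →ₗ[K] W) = inv I σ := by
    ext w
    rw [Submodule.mem_map]
    constructor
    · rintro ⟨v, hv, rfl⟩ g hg
      have := he g v
      rw [hv g hg] at this
      exact this.symm
    · intro hw
      refine ⟨e.symm w, fun g hg => ?_, e.apply_symm_apply w⟩
      apply e.injective
      rw [he, e.apply_symm_apply, hw g hg]
  let e' : inv I ρ ≃ₗ[K] inv I σ := e.ofSubmodules _ _ hmap
  have h1 : frob I F σ = e'.conj (frob I F ρ) := by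
    apply LinearMap.ext
    intro w
    obtain ⟨v, rfl⟩ := e'.surjective w
    rw [LinearEquiv.conj_apply_apply, e'.symm_apply_apply]
    apply Subtype.ext
    exact (he F (v : V)).symm
  rw [fac, fac, h1, detOneSub_conj]

lemma fac_twist (χ : G →* K) (hχ : ∀ g ∈ I, χ g = 1) (ρ : Representation K G V) :
    fac I F (twist χ ρ) = (fac I F ρ).comp (C (χ F) * X) := by
  have hinv : inv I ρ = inv I (twist χ ρ) := by
    ext v
    refine forall₂_congr fun g hg => ?_
    change _ ↔ χ g • ρ g v = v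
    rw [hχ g hg, one_smul]
  let e : inv I ρ ≃ₗ[K] inv I (twist χ ρ) := LinearEquiv.ofEq _ _ hinv
  have h1 : frob I F (twist χ ρ) = e.conj (χ F • frob I F ρ) := by
    apply LinearMap.ext
    intro w
    obtain ⟨v, rfl⟩ := e.surjective w
    rw [LinearEquiv.conj_apply_apply, e.symm_apply_apply]
    rfl
  rw [fac, fac, h1, detOneSub_conj, detOneSub_smul]

lemma fac_sum (ρ : Representation K G V) (σ : Representation K G W) :
    fac I F (sum ρ σ) = fac I F ρ * fac I F σ := by
  let e : (inv I ρ × inv I σ) ≃ₗ[K] inv I (sum ρ σ) :=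
    { toFun := fun v => ⟨(v.1, v.2), fun g hg => Prod.ext (v.1.2 g hg) (v.2.2 g hg)⟩
      map_add' := fun _ _ => rfl
      map_smul' := fun _ _ => rfl
      invFun := fun v => (⟨v.1.1, fun g hg => congrArg Prod.fst (v.2 g hg)⟩,
        ⟨v.1.2, fun g hg => congrArg Prod.snd (v.2 g hg)⟩)
      left_inv := fun _ => rfl
      right_inv := fun _ => rfl }
  have h1 : frob I F (sum ρ σ) = e.conj ((frob I F ρ).prodMap (frob I F σ)) := by
    apply LinearMap.ext
    intro w
    obtain ⟨v, rfl⟩ := e.surjective w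
    rw [LinearEquiv.conj_apply_apply, e.symm_apply_apply]
    rfl
  rw [fac, fac, fac, h1, detOneSub_conj, detOneSub_prod]

end rep

/-! ### Families of polynomials -/

section fam

variable {ι : Type v} {K : ι → Type w} [∀ l, Field (K l)] [∀ l, CharZero (K l)]

/-- The polynomials `f l` are given by one polynomial with rational coefficients. -/
def Rat (f : ∀ l, (K l)[X]) : Prop :=
  ∃ P : ℚ[X], ∀ l, f l = P.map (algebraMap ℚ (K l))

lemma Rat.mul {f g : ∀ l, (K l)[X]} (hf : Rat f) (hg : Rat g) : Rat fun l => f l * g l := by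
  obtain ⟨P, hP⟩ := hf
  obtain ⟨Q, hQ⟩ := hg
  exact ⟨P * Q, fun l => by
    change f l * g l = _
    rw [hP, hQ, Polynomial.map_mul]⟩

lemma Rat.of_mul {f g : ∀ l, (K l)[X]} (hf : Rat f) (h0 : ∀ l, f l ≠ 0)
    (hfg : Rat fun l => f l * g l) : Rat g := by
  obtain ⟨P, hP⟩ := hf
  obtain ⟨Q, hQ⟩ := hfg
  refine ⟨Q / P, fun l => ?_⟩
  have h1 : f l * g l = Q.map (algebraMap ℚ (K l)) := hQ l
  rw [hP l] at h1
  have hP0 : P ≠ 0 := by
    rintro rfl
    exact h0 l (by rw [hP l, Polynomial.map_zero])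
  have h2 : P ∣ Q := by
    rw [← map_dvd_map' (algebraMap ℚ (K l))]
    exact ⟨_, h1.symm⟩
  obtain ⟨R, rfl⟩ := h2
  rw [mul_div_cancel_left₀ _ hP0]
  rw [Polynomial.map_mul] at h1
  have h3 : P.map (algebraMap ℚ (K l)) ≠ 0 := by
    rw [← hP l]; exact h0 l
  exact mul_left_cancel₀ h3 h1

lemma Rat.of_sq {f : ∀ l, (K l)[X]} (h0 : ∀ l, (f l).coeff 0 = 1)
    (hf : Rat fun l => f l * f l) : Rat f := by
  obtain ⟨P, hP⟩ := hf
  rcases isEmpty_or_nonempty ι with hι | ⟨⟨l₀⟩⟩
  · exact ⟨0, fun l => isEmptyElim l⟩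
  have key : ∀ k, ∃ c : ℚ, ∀ l, (f l).coeff k = algebraMap ℚ (K l) c := by
    intro k
    induction k using Nat.strong_induction_on with
    | _ k ih =>
      rcases Nat.eq_zero_or_pos k with rfl | hk
      · exact ⟨1, fun l => by rw [h0, map_one]⟩
      · choose! c hc using ih
        refine ⟨(P.coeff k - ∑ q ∈ (Finset.HasAntidiagonal.antidiagonal k :
          Finset (ℕ × ℕ)).filter (fun q => q.1 ≠ 0 ∧ q.2 ≠ 0), c q.1 * c q.2) / 2, fun l => ?_⟩
        have h1 := congrArg (fun F => F.coeff k) (hP l)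
        simp only [coeff_map] at h1
        rw [coeff_mul, ← Finset.sum_filter_add_sum_filter_not _ (fun q : ℕ × ℕ => q.1 ≠ 0 ∧ q.2 ≠ 0)]
          at h1
        have h2 : ∑ q ∈ (Finset.HasAntidiagonal.antidiagonal k : Finset (ℕ × ℕ)).filter (fun q => q.1 ≠ 0 ∧ q.2 ≠ 0),
            (f l).coeff q.1 * (f l).coeff q.2 = algebraMap ℚ (K l)
            (∑ q ∈ (Finset.HasAntidiagonal.antidiagonal k : Finset (ℕ × ℕ)).filter (fun q => q.1 ≠ 0 ∧ q.2 ≠ 0),
              c q.1 * c q.2) := by
          rw [map_sum]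
          refine Finset.sum_congr rfl fun q hq => ?_
          rw [Finset.mem_filter, Finset.HasAntidiagonal.mem_antidiagonal] at hq
          rw [hc q.1 (by omega), hc q.2 (by omega), map_mul]
        have h3 : (Finset.HasAntidiagonal.antidiagonal k : Finset (ℕ × ℕ)).filter (fun q : ℕ × ℕ => ¬ (q.1 ≠ 0 ∧ q.2 ≠ 0)) =
            {(0, k), (k, 0)} := by
          ext q
          rw [Finset.mem_filter, Finset.HasAntidiagonal.mem_antidiagonal, Finset.mem_insert, Finset.mem_singleton,
            Prod.ext_iff, Prod.ext_iff]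
          simp only
          omega
        rw [h2, h3, Finset.sum_pair (by
          intro h
          rw [Prod.ext_iff] at h
          simp only at h
          omega), h0 l, one_mul, mul_one, ← eq_sub_iff_add_eq', ← map_sub, ← two_mul] at h1
        rw [map_div₀, ← h1, map_ofNat, mul_div_cancel_left₀ _ two_ne_zero]
  choose c hc using key
  refine ⟨∑ k ∈ Finset.range ((f l₀).natDegree + 1), C (c k) * X ^ k, fun l => ?_⟩
  ext k
  rw [coeff_map, finsetSum_coeff, hc k l]
  congr 1
  simp only [coeff_C_mul, coeff_X_pow, mul_ite, mul_one, mul_zero]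
  rw [Finset.sum_ite_eq]
  split_ifs with h
  · rfl
  · have h1 : (f l₀).coeff k = 0 := coeff_eq_zero_of_natDegree_lt (by
      rw [Finset.mem_range] at h
      omega)
    rw [hc k l₀] at h1
    exact (map_eq_zero (algebraMap ℚ (K l₀))).1 h1

lemma Rat.of_comp {f : ∀ l, (K l)[X]} {p : ℕ} (hp : p ≠ 0)
    (hf : Rat fun l => (f l).comp (C (p : K l) * X)) : Rat f := by
  obtain ⟨P, hP⟩ := hf
  refine ⟨P.comp (C (p : ℚ)⁻¹ * X), fun l => ?_⟩
  rw [Polynomial.map_comp, ← hP l, Polynomial.map_mul, map_C, map_X, comp_assoc, mul_comp, C_comp,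
    X_comp, ← mul_assoc, ← C_mul, map_inv₀, map_natCast,
    mul_inv_cancel₀ (Nat.cast_ne_zero.2 hp), C_1, one_mul, comp_X]

/-- The constant coefficients are one. -/
def Unital (f : ∀ l, (K l)[X]) : Prop := ∀ l, (f l).coeff 0 = 1

omit [∀ l, CharZero (K l)] in
lemma Unital.ne_zero {f : ∀ l, (K l)[X]} (h : Unital f) (l : ι) : f l ≠ 0 := by
  intro h0
  have := h l
  rw [h0, coeff_zero] at this
  exact zero_ne_one this

omit [∀ l, CharZero (K l)] in
lemma Unital.mul {f g : ∀ l, (K l)[X]} (hf : Unital f) (hg : Unital g) : Unital (f * g) := by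
  intro l
  rw [Pi.mul_apply, mul_coeff_zero, hf, hg, one_mul]

omit [∀ l, CharZero (K l)] in
lemma Unital.prod {w : ℕ → ∀ l, (K l)[X]} (s : Finset ℕ) (h : ∀ j, Unital (w j)) :
    Unital (∏ j ∈ s, w j) := by
  classical
  induction s using Finset.induction_on with
  | empty =>
    intro l
    rw [Finset.prod_empty, Pi.one_apply, coeff_one_zero]
  | insert a s ha ih =>
    rw [Finset.prod_insert ha]
    exact (h a).mul ih

/-- The combinatorial lemma. -/
lemma rat_of_middle {w : ℕ → ∀ l, (K l)[X]} {r : ℕ} (h0 : ∀ j, Unital (w j))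
    (hsym : ∀ j ≤ r, w j = w (r - j)) (hM : ∀ a b, a + b = r →
      Rat (∏ k ∈ Finset.range (b + 1), ∏ j ∈ Finset.range (a + 1), w (j + k))) :
    ∀ j ≤ r, Rat (w j) := by
  have hN : ∀ b, 2 * b ≤ r + 1 → Rat (∏ j ∈ Finset.Ico b (r - b + 1), w j) := by
    intro b
    rcases b with _ | b
    · intro _
      have h1 := hM r 0 (by omega)
      rw [zero_add, Finset.prod_range_one] at h1
      rw [Nat.sub_zero, ← Finset.range_eq_Ico]
      exact h1
    · intro hb
      obtain ⟨a, ha⟩ : ∃ a, a + (b + 1) = r := ⟨r - (b + 1), by omega⟩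
      have h1 := hM a (b + 1) ha
      have h2 := hM (a + 1) b (by omega)
      have e1 : ∏ j ∈ Finset.range (a + 1), w (j + (b + 1)) =
          (∏ j ∈ Finset.Ico (b + 1) (a + 1), w j) * ∏ j ∈ Finset.Ico (a + 1) (r + 1), w j := by
        rw [Finset.prod_Ico_consecutive _ (by omega) (by omega), Finset.prod_Ico_eq_prod_range]
        rw [show r + 1 - (b + 1) = a + 1 by omega]
        exact Finset.prod_congr rfl fun j _ => by rw [add_comm]
      have e2 : ∏ k ∈ Finset.range (b + 1), w (a + 1 + k) =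
          ∏ j ∈ Finset.Ico (a + 1) (r + 1), w j := by
        rw [Finset.prod_Ico_eq_prod_range, show r + 1 - (a + 1) = b + 1 by omega]
      have e3 : (∏ k ∈ Finset.range (b + 1 + 1), ∏ j ∈ Finset.range (a + 1), w (j + k)) =
          (∏ k ∈ Finset.range (b + 1), ∏ j ∈ Finset.range (a + 1 + 1), w (j + k)) *
            ∏ j ∈ Finset.Ico (b + 1) (a + 1), w j := by
        rw [Finset.prod_range_succ, e1]
        simp_rw [Finset.prod_range_succ _ (a + 1)]
        rw [Finset.prod_mul_distrib, e2]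
        ring
      rw [e3] at h1
      have h3 : Rat (∏ j ∈ Finset.Ico (b + 1) (a + 1), w j) :=
        Rat.of_mul h2 (Unital.ne_zero (Unital.prod (w := fun k =>
          ∏ j ∈ Finset.range (a + 1 + 1), w (j + k)) _ fun k =>
            Unital.prod (w := fun j => w (j + k)) _ fun j => h0 _)) h1
      rwa [show r - (b + 1) + 1 = a + 1 by omega]
  have hlow : ∀ j, 2 * j ≤ r → Rat (w j) := by
    intro j hj
    rcases hj.eq_or_lt with h | h
    · have h1 := hN j (by omega)
      rwa [show r - j + 1 = j + 1 by omega, Nat.Ico_succ_singleton, Finset.prod_singleton] at h1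
    · have h1 := hN j (by omega)
      have h2 := hN (j + 1) (by omega)
      rw [show r - (j + 1) + 1 = r - j by omega] at h2
      rw [Finset.prod_Ico_succ_top (by omega), Finset.prod_eq_prod_Ico_succ_bot (by omega),
        ← hsym j (by omega)] at h1
      have e1 : (w j * ∏ k ∈ Finset.Ico (j + 1) (r - j), w k) * w j =
          (∏ k ∈ Finset.Ico (j + 1) (r - j), w k) * (w j * w j) := by ring
      rw [e1] at h1
      exact Rat.of_sq (h0 j) (Rat.of_mul h2 (Unital.ne_zero (Unital.prod _ h0)) h1)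
  intro j hj
  by_cases h : 2 * j ≤ r
  · exact hlow j h
  · rw [hsym j hj]
    exact hlow _ (by omega)

end fam

section cohomology

variable {G : Type u} [Group G] {ι : Type v} {K : ι → Type w} [∀ l, Field (K l)]
  {D : Cohomology.{u, v, w, x, y} G ι K} {I : Subgroup G} [I.Normal] {F : G} {p : ℕ}
  {χ : ∀ l, G →* K l} (hD : D.IsCohomology I F p χ)

lemma comp_comp_scale {k : Type*} [Field k] (f : k[X]) (c d : k) :
    (f.comp (C c * X)).comp (C d * X) = f.comp (C (c * d) * X) := by
  rw [comp_assoc, mul_comp, C_comp, X_comp, ← mul_assoc, ← C_mul]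

include hD

lemma factor_zero (l : ι) (X : D.Var) (i : ℤ) :
    D.factor I F l (D.timesP X 0) i = D.factor I F l X i := fac_iso I F (hD.zero l X i)

lemma factor_succ (l : ι) (Y : D.Var) (a : ℕ) (i : ℤ) :
    D.factor I F l (D.timesP Y (a + 1)) i =
      D.factor I F l Y i * (D.factor I F l (D.timesP Y a) (i - 2)).comp (C (p : K l) * X) := by
  rw [Cohomology.factor, fac_iso I F (hD.succ l Y a i), fac_sum,
    fac_twist I F (χ l) (hD.inertia l), hD.frobenius l]
  rfl

lemma factor_timesP (l : ι) (Y : D.Var) (a : ℕ) : ∀ i : ℤ,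
    D.factor I F l (D.timesP Y a) i = ∏ j ∈ Finset.range (a + 1),
      (D.factor I F l Y (i - 2 * j)).comp (C ((p : K l) ^ j) * X) := by
  induction a with
  | zero =>
    intro i
    rw [zero_add, Finset.prod_range_one, factor_zero hD]
    simp
  | succ a ih =>
    intro i
    rw [factor_succ hD, ih, Finset.prod_range_succ' _ (a + 1), Polynomial.prod_comp, mul_comm]
    congr 1
    · refine Finset.prod_congr rfl fun j _ => ?_
      rw [comp_comp_scale, pow_succ]
      congr 2
      push_cast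
      ring
    · simp

lemma factor_double (l : ι) (Y : D.Var) (a b : ℕ) (i : ℤ) :
    D.factor I F l (D.timesP (D.timesP Y a) b) i = ∏ k ∈ Finset.range (b + 1),
      ∏ j ∈ Finset.range (a + 1),
        (D.factor I F l Y (i - 2 * ((j + k : ℕ) : ℤ))).comp (C ((p : K l) ^ (j + k)) * X) := by
  rw [factor_timesP hD]
  refine Finset.prod_congr rfl fun k _ => ?_
  rw [factor_timesP hD, Polynomial.prod_comp]
  refine Finset.prod_congr rfl fun j _ => ?_
  rw [comp_comp_scale, pow_add]
  congr 2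
  push_cast
  ring

lemma factor_lefschetz (l : ι) (Y : D.Var) (s : ℕ) :
    D.factor I F l Y (D.dim Y + s) =
      (D.factor I F l Y (D.dim Y - s)).comp (C ((p : K l) ^ s) * X) := by
  rw [Cohomology.factor, fac_iso I F (hD.lefschetz l Y s), fac_twist I F (χ l ^ s) (by
    intro g hg
    rw [MonoidHom.pow_apply, hD.inertia l g hg, one_pow]), MonoidHom.pow_apply, hD.frobenius l]
  rfl

variable [∀ l, CharZero (K l)]

omit hD in
lemma Good.rat {X : D.Var} {i : ℤ} (h : D.Good I F X i) : Rat fun l => D.factor I F l X i := by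
  obtain ⟨P, hP⟩ := h
  refine ⟨P.map (Int.castRingHom ℚ), fun l => ?_⟩
  change D.factor I F l X i = _
  rw [hP l, Polynomial.map_map]
  congr 1
  exact RingHom.ext_int _ _

lemma good_of_rat {X : D.Var} {i : ℤ} (h : Rat fun l => D.factor I F l X i) :
    D.Good I F X i := by
  obtain ⟨P, hP⟩ := h
  rcases isEmpty_or_nonempty ι with hι | ⟨⟨l₀⟩⟩
  · exact ⟨0, fun l => isEmptyElim l⟩
  have h1 : P ∈ lifts (Int.castRingHom ℚ) := by
    rw [lifts_iff_coeff_lifts]
    intro k
    have h2 := hD.integral l₀ X i k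
    have h3 : D.factor I F l₀ X i = P.map (algebraMap ℚ (K l₀)) := hP l₀
    rw [h3, coeff_map] at h2
    have h4 : IsIntegral ℤ (P.coeff k) :=
      (isIntegral_algebraMap_iff (algebraMap ℚ (K l₀)).injective).1 h2
    obtain ⟨z, hz⟩ := IsIntegrallyClosed.isIntegral_iff.1 h4
    exact ⟨z, by rw [← hz]; rfl⟩
  obtain ⟨Q, hQ⟩ := (mem_lifts P).1 h1
  refine ⟨Q, fun l => ?_⟩
  have h3 : D.factor I F l X i = P.map (algebraMap ℚ (K l)) := hP l
  rw [h3, ← hQ, Polynomial.map_map]
  congr 1
  exact RingHom.ext_int _ _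

theorem good_of_middle (hp : p ≠ 0) (Y : D.Var) (d : ℕ) (hd : 2 * D.dim Y ≤ d)
    (h : ∀ a b : ℕ, a + b + D.dim Y = d → D.Good I F (D.timesP (D.timesP Y a) b) d) (i : ℤ)
    (hi : 0 ≤ i) (hi2 : i ≤ 2 * D.dim Y) (heven : Even ((d : ℤ) - i)) : D.Good I F Y i := by
  obtain ⟨r, rfl⟩ := Nat.exists_eq_add_of_le (show D.dim Y ≤ d by omega)
  let w : ℕ → ∀ l, (K l)[X] := fun j l =>
    (D.factor I F l Y (((D.dim Y + r : ℕ) : ℤ) - 2 * j)).comp (C ((p : K l) ^ j) * X)
  have h0 : ∀ j, Unital (w j) := by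
    intro j l
    change ((D.factor I F l Y _).comp _).coeff 0 = 1
    rw [coeff_zero_eq_eval_zero, eval_comp, eval_mul, eval_X, mul_zero,
      ← coeff_zero_eq_eval_zero]
    exact fac_coeff I F _
  have hlow : ∀ j, 2 * j ≤ r → w j = w (r - j) := by
    intro j hj
    funext l
    change (D.factor I F l Y (((D.dim Y + r : ℕ) : ℤ) - 2 * j)).comp _ =
      (D.factor I F l Y (((D.dim Y + r : ℕ) : ℤ) - 2 * ((r - j : ℕ) : ℤ))).comp _
    have e1 : (((D.dim Y + r : ℕ) : ℤ) - 2 * j) = D.dim Y + ((r - 2 * j : ℕ) : ℤ) := by omega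
    have e2 : (((D.dim Y + r : ℕ) : ℤ) - 2 * ((r - j : ℕ) : ℤ)) =
        D.dim Y - ((r - 2 * j : ℕ) : ℤ) := by omega
    rw [e1, e2, factor_lefschetz hD, comp_comp_scale, ← pow_add,
      show r - 2 * j + j = r - j by omega]
  have hsym : ∀ j ≤ r, w j = w (r - j) := by
    intro j hj
    by_cases hjr : 2 * j ≤ r
    · exact hlow j hjr
    · have := hlow (r - j) (by omega)
      rw [this, show r - (r - j) = j by omega]
  have hM : ∀ a b, a + b = r →
      Rat (∏ k ∈ Finset.range (b + 1), ∏ j ∈ Finset.range (a + 1), w (j + k)) := by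
    intro a b hab
    have h1 := Good.rat (h a b (by omega))
    have e1 : (fun l => D.factor I F l (D.timesP (D.timesP Y a) b) ((D.dim Y + r : ℕ) : ℤ)) =
        ∏ k ∈ Finset.range (b + 1), ∏ j ∈ Finset.range (a + 1), w (j + k) := by
      funext l
      rw [factor_double hD, Finset.prod_apply]
      refine Finset.prod_congr rfl fun k _ => ?_
      rw [Finset.prod_apply]
    rw [e1] at h1
    exact h1
  have key := rat_of_middle h0 hsym hM
  obtain ⟨j, hj⟩ : ∃ j : ℕ, ((D.dim Y + r : ℕ) : ℤ) - 2 * j = i := by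
    obtain ⟨m, hm⟩ := heven
    exact ⟨m.toNat, by omega⟩
  have h1 := key j (by omega)
  have h2 : Rat fun l => (D.factor I F l Y i).comp (C ((p ^ j : ℕ) : K l) * X) := by
    have e1 : w j = fun l => (D.factor I F l Y i).comp (C ((p ^ j : ℕ) : K l) * X) := by
      funext l
      change (D.factor I F l Y (((D.dim Y + r : ℕ) : ℤ) - 2 * j)).comp _ = _
      rw [hj, Nat.cast_pow]
    rwa [e1] at h1
  exact good_of_rat hD (Rat.of_comp (pow_ne_zero j hp) h2)

theorem good_iff (hp : p ≠ 0) {S : Set ℕ} (h0 : ∀ B : ℕ, ∃ d ∈ S, B ≤ d ∧ Even d)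
    (h1 : ∀ B : ℕ, ∃ d ∈ S, B ≤ d ∧ Odd d) :
    (∀ (Y : D.Var) (i : ℤ), 0 ≤ i → i ≤ 2 * D.dim Y → D.Good I F Y i) ↔
      ∀ Y : D.Var, D.dim Y ∈ S → D.Good I F Y (D.dim Y) := by
  refine ⟨fun h Y _ => h Y _ (by omega) (by omega), fun h Y i hi hi2 => ?_⟩
  have hmid : ∀ d ∈ S, ∀ a b : ℕ, a + b + D.dim Y = d →
      D.Good I F (D.timesP (D.timesP Y a) b) d := by
    intro d hd a b hab
    have e1 : D.dim (D.timesP (D.timesP Y a) b) = d := by
      rw [hD.dim_timesP, hD.dim_timesP]
      omega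
    have := h (D.timesP (D.timesP Y a) b) (by rwa [e1])
    rwa [e1] at this
  rcases Int.even_or_odd i with hev | hodd
  · obtain ⟨d, hd, hB, hd2⟩ := h0 (2 * D.dim Y)
    refine good_of_middle hD hp Y d hB (hmid d hd) i hi hi2 ?_
    exact (((Int.even_coe_nat d).2 hd2).sub hev)
  · obtain ⟨d, hd, hB, hd2⟩ := h1 (2 * D.dim Y)
    refine good_of_middle hD hp Y d hB (hmid d hd) i hi hi2 ?_
    exact ((Int.odd_coe_nat d).2 hd2).sub_odd hodd

end cohomology

end Pool.Agent.TH26.MD
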